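import Pool.Agent.H31.KSp4

open Pool.Agent.H31.TSp Pool.Agent.H31.KSp

universe u v w

theorem Pool.Agent.Results.MP_9607dd_gt.Main.result
    {X : Type u} {V : Type v} [TopologicalSpace X] [T35Space X]
    [AddCommGroup V] [Module ℝ V] [TopologicalSpace V] [IsTopologicalAddGroup V]
    [ContinuousSMul ℝ V] [T2Space V] (i : X → V) (hi : IsFreeTVS.{u, v, v} i)
    (hX : KStarMetrizable.{u, w} X) (hk : CompactlyCoherentSpace (sp i 2)) :
    CompactlyCoherentSpace V ∧ IsKOmega V ∧ IsKOmega X :=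
  have h := main hi le_rfl hk hX
  ⟨h.2.2.1, h.2.1, h.1⟩
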